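import Mathlib
import Pool.Agent.Helper30.SplitFinal

/-!
The Prasad-Ram formula for the number of `m`-dimensional `W` with `V = W ⊕ TW ⊕ T²W`, `dim V = 3m`.
-/

open Module

universe u

namespace Pool.Agent.Results.MP_9e5051_co.UniversalFormula

/-- `σ^T_{(m,m,m)}`: the number of `m`-dimensional subspaces `W` of `V = F^{3m}` such that `V` is the
internal direct sum of `W`, `TW` and `T²W`. -/
noncomputable def sigma {F : Type u} [Field F] {m : ℕ} (T : Matrix (Fin (3 * m)) (Fin (3 * m)) F) : ℕ :=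
  Nat.card {W : Submodule F (Fin (3 * m) → F) //
    finrank F W = m ∧ DirectSum.IsInternal fun i : Fin 3 => W.map (T ^ (i : ℕ)).mulVecLin}

/-- `Y^T_{(j 0, j 1, j 2)}`: the number of chains `0 = W₀ ⊆ W₁ ⊆ W₂ ⊆ W₃ ⊆ V` of `T`-stable subspaces
with `dim W_{i+1} = dim W_i + j i`. -/
noncomputable def Y {F : Type u} [Field F] {n : ℕ} (T : Matrix (Fin n) (Fin n) F) (j : Fin 3 → ℕ) : ℕ :=
  Nat.card {W : Fin 4 → Submodule F (Fin n → F) //
    W 0 = ⊥ ∧ Monotone W ∧ (∀ i, (W i).map T.mulVecLin ≤ W i) ∧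
      ∀ i : Fin 3, finrank F (W i.succ) = finrank F (W i.castSucc) + j i}

/-- the function `g(j₁,j₂,j₃)` of the problem -/
def g (j : Fin 3 → ℕ) : ℤ :=
  if (j 1 + 2 * j 2) % 3 = 2 then 2 * j 1 + j 2 else j 1 + 2 * j 2

/-- the exponent `e(j₁,j₂,j₃)` of the problem (the bracket is divisible by `3`, see `three_dvd`) -/
def e (m : ℕ) (j : Fin 3 → ℕ) : ℤ :=
  (m : ℤ) ^ 2 - m + (((j 0).choose 2 : ℤ) + ((j 1).choose 2 : ℤ) + ((j 2).choose 2 : ℤ) - g j) / 3

theorem two_choose (n : ℕ) : 2 * (n.choose 2 : ℤ) = n * (n - 1) := by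
  have h := Nat.cast_choose_two ℚ n
  have : (2 : ℚ) * (n.choose 2 : ℚ) = n * (n - 1) := by rw [h]; ring
  exact_mod_cast this

theorem three_dvd (m : ℕ) (j : Fin 3 → ℕ) (hj : j 0 + j 1 + j 2 = 3 * m) :
    (3 : ℤ) ∣ ((j 0).choose 2 : ℤ) + ((j 1).choose 2 : ℤ) + ((j 2).choose 2 : ℤ) - g j := by
  have h0 := two_choose (j 0)
  have h1 := two_choose (j 1)
  have h2 := two_choose (j 2)
  set A : ℤ := ((j 0).choose 2 : ℤ) + ((j 1).choose 2 : ℤ) + ((j 2).choose 2 : ℤ) - g j with hA
  have hdvd : (3 : ℤ) ∣ 2 * A := by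
    have h2A : 2 * A = (j 0 : ℤ) * (j 0 - 1) + j 1 * (j 1 - 1) + j 2 * (j 2 - 1) - 2 * g j := by
      rw [hA]; linear_combination h0 + h1 + h2
    rw [h2A]
    apply (ZMod.intCast_zmod_eq_zero_iff_dvd _ 3).1
    have hj0 : ((j 0 : ℕ) : ZMod 3) = - (j 1 : ZMod 3) - (j 2 : ZMod 3) := by
      have h3 : ((j 0 + j 1 + j 2 : ℕ) : ZMod 3) = ((3 * m : ℕ) : ZMod 3) := by rw [hj]
      push_cast at h3
      have h4 : (3 : ZMod 3) = 0 := by decide
      rw [h4, zero_mul] at h3
      linear_combination h3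
    push_cast
    rw [hj0]
    have hg : ((g j : ℤ) : ZMod 3) = ((j 1 : ZMod 3) - (j 2 : ZMod 3)) ^ 2 := by
      have hmod : ((j 1 : ZMod 3) - (j 2 : ZMod 3)) = (((j 1 + 2 * j 2) % 3 : ℕ) : ZMod 3) := by
        rw [ZMod.natCast_mod]
        push_cast
        have h4 : (3 : ZMod 3) = 0 := by decide
        linear_combination (-(j 2 : ZMod 3)) * h4
      have hcase : (j 1 + 2 * j 2) % 3 = 0 ∨ (j 1 + 2 * j 2) % 3 = 1 ∨ (j 1 + 2 * j 2) % 3 = 2 := by omega
      have h4 : (3 : ZMod 3) = 0 := by decide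
      have hlin : ((j 1 : ZMod 3) + 2 * (j 2 : ZMod 3)) = ((j 1 : ZMod 3) - (j 2 : ZMod 3)) := by
        linear_combination (j 2 : ZMod 3) * h4
      have hlin2 : (2 * (j 1 : ZMod 3) + (j 2 : ZMod 3)) = 2 * ((j 1 : ZMod 3) - (j 2 : ZMod 3)) := by
        linear_combination (j 2 : ZMod 3) * h4
      unfold g
      rcases hcase with h | h | h
      · rw [if_neg (by omega)]
        push_cast
        rw [hlin, hmod, h]; simp
      · rw [if_neg (by omega)]
        push_cast
        rw [hlin, hmod, h]; simp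
      · rw [if_pos h]
        push_cast
        rw [hlin2, hmod, h]; decide
    rw [hg]
    have h4 : (3 : ZMod 3) = 0 := by decide
    linear_combination (2 * (j 1 : ZMod 3) * (j 2 : ZMod 3)) * h4
  omega

section
variable {F : Type u} [Field F]

theorem mulVecLin_pow_two {n : ℕ} (T : Matrix (Fin n) (Fin n) F) :
    (T ^ 2).mulVecLin = T.mulVecLin ∘ₗ T.mulVecLin := by
  rw [pow_two, Matrix.mulVecLin_mul]

theorem inj_coe {V : Type u} [AddCommGroup V] [Module F V] [FiniteDimensional F V]
    (A : Fin 3 → Submodule F V) (hsurj : Function.Surjective (DirectSum.coeLinearMap A))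
    (hdim : finrank F (DirectSum (Fin 3) fun i => A i) ≤ finrank F V) :
    Function.Injective (DirectSum.coeLinearMap A) := by
  have hk := LinearMap.finrank_range_add_finrank_ker (DirectSum.coeLinearMap A)
  rw [LinearMap.range_eq_top.2 hsurj, finrank_top] at hk
  have h0 : finrank F (LinearMap.ker (DirectSum.coeLinearMap A)) = 0 := by omega
  rw [Submodule.finrank_eq_zero] at h0
  exact LinearMap.ker_eq_bot.1 h0

theorem sigma_eq {m : ℕ} [Finite F] (T : Matrix (Fin (3 * m)) (Fin (3 * m)) F) :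
    sigma T = Nat.card {U : Submodule F (Fin (3 * m) → F) // finrank F U = m ∧
      U ⊔ U.map T.mulVecLin ⊔ U.map (T.mulVecLin ∘ₗ T.mulVecLin) = ⊤} := by
  unfold sigma
  apply Nat.card_congr
  apply Equiv.subtypeEquivRight
  intro W
  apply and_congr_right
  intro hW
  set A : Fin 3 → Submodule F (Fin (3 * m) → F) := fun i : Fin 3 => W.map (T ^ (i : ℕ)).mulVecLin with hA
  have h0 : A 0 = W := by simp [hA]
  have h1 : A 1 = W.map T.mulVecLin := by simp [hA]
  have h2 : A 2 = W.map (T.mulVecLin ∘ₗ T.mulVecLin) := by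
    simp only [hA]
    rw [← mulVecLin_pow_two]; rfl
  clear_value A
  have hsup : ⨆ i, A i = W ⊔ W.map T.mulVecLin ⊔ W.map (T.mulVecLin ∘ₗ T.mulVecLin) := by
    apply le_antisymm
    · apply iSup_le
      intro i
      fin_cases i
      · change A 0 ≤ _; rw [h0]; exact le_sup_left.trans le_sup_left
      · change A 1 ≤ _; rw [h1]; exact le_sup_right.trans le_sup_left
      · change A 2 ≤ _; rw [h2]; exact le_sup_right
    · refine sup_le (sup_le ?_ ?_) ?_
      · rw [← h0]; exact le_iSup A 0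
      · rw [← h1]; exact le_iSup A 1
      · rw [← h2]; exact le_iSup A 2
  constructor
  · intro h
    rw [← hsup]
    exact h.submodule_iSup_eq_top
  · intro h
    have hA0 : finrank F (A 0) = m := by rw [h0, hW]
    have hA1 : finrank F (A 1) ≤ m := by rw [h1]; exact (Submodule.finrank_map_le _ _).trans hW.le
    have hA2 : finrank F (A 2) ≤ m := by rw [h2]; exact (Submodule.finrank_map_le _ _).trans hW.le
    have hsurj : Function.Surjective (DirectSum.coeLinearMap A) := by
      rw [← LinearMap.range_eq_top, DirectSum.range_coeLinearMap, hsup, h]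
    have hdim : finrank F (DirectSum (Fin 3) fun i => A i) ≤ finrank F (Fin (3 * m) → F) := by
      rw [Module.finrank_directSum, Fin.sum_univ_three, Module.finrank_fin_fun]
      omega
    exact ⟨inj_coe A hsurj hdim, hsurj⟩

theorem Y_eq {n : ℕ} [Finite F] (T : Matrix (Fin n) (Fin n) F) (j : Fin 3 → ℕ)
    (hj : j 0 + j 1 + j 2 = n) :
    Y T j = Nat.card {p : Submodule F (Fin n → F) × Submodule F (Fin n → F) //
      (p.1.map T.mulVecLin ≤ p.1 ∧ p.1 ≤ p.2 ∧ p.2.map T.mulVecLin ≤ p.2) ∧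
        finrank F p.1 = j 0 ∧ finrank F p.2 = j 0 + j 1} := by
  unfold Y
  apply Nat.card_congr
  refine
   { toFun := fun W => ⟨(W.1 1, W.1 2), ?_⟩
     invFun := fun p => ⟨![⊥, p.1.1, p.1.2, ⊤], ?_⟩
     left_inv := ?_
     right_inv := ?_ }
  · obtain ⟨W, h0, hm, hs, hd⟩ := W
    have d0 : finrank F (W 1) = finrank F (W 0) + j 0 := hd 0
    have d1 : finrank F (W 2) = finrank F (W 1) + j 1 := hd 1
    rw [h0, finrank_bot, zero_add] at d0
    refine ⟨⟨hs 1, hm (by decide), hs 2⟩, d0, ?_⟩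
    simp only
    rw [d1, d0]
  · obtain ⟨⟨U, Z⟩, ⟨hU, hUZ, hZ⟩, hd0, hd1⟩ := p
    simp only at hU hUZ hZ hd0 hd1
    refine ⟨rfl, ?_, ?_, ?_⟩
    · rw [Fin.monotone_iff_le_succ]
      intro i
      fin_cases i
      · exact bot_le
      · exact hUZ
      · exact le_top
    · intro i
      fin_cases i
      · simp
      · exact hU
      · exact hZ
      · exact le_top
    · intro i
      fin_cases i
      · change finrank F U = finrank F (⊥ : Submodule F (Fin n → F)) + j 0
        rw [finrank_bot, hd0, zero_add]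
      · change finrank F Z = finrank F U + j 1
        rw [hd0, hd1]
      · change finrank F (⊤ : Submodule F (Fin n → F)) = finrank F Z + j 2
        rw [finrank_top, Module.finrank_fin_fun, hd1, hj]
  · rintro ⟨W, h0, hm, hs, hd⟩
    apply Subtype.ext
    funext i
    have d0 : finrank F (W 1) = finrank F (W 0) + j 0 := hd 0
    have d1 : finrank F (W 2) = finrank F (W 1) + j 1 := hd 1
    have d2 : finrank F (W 3) = finrank F (W 2) + j 2 := hd 2
    rw [h0, finrank_bot, zero_add] at d0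
    have htop : W 3 = ⊤ := by
      apply Submodule.eq_top_of_finrank_eq
      rw [d2, d1, d0, Module.finrank_fin_fun, hj]
    fin_cases i
    · exact h0.symm
    · rfl
    · rfl
    · exact htop.symm
  · rintro ⟨⟨U, Z⟩, h⟩
    rfl

open Pool.Agent.Helper30.Split in
/-- weight of a composition in terms of `r` -/
theorem weight_eq {r ω : ℂ} {q : ℂ} (hq : r ^ 12 = q) (m : ℕ) (j : Fin 3 → ℕ)
    (hj : j 0 + j 1 + j 2 = 3 * m) :
    ω ^ (j 1 + 2 * j 2) * q ^ (e m j) = cwt r ω m (j 0) (j 0 + j 1 : ℕ) := by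
  unfold cwt
  have hj2 : (3 * (m : ℤ) - ((j 0 + j 1 : ℕ) : ℤ)) = j 2 := by push_cast; omega
  have hj1 : (((j 0 + j 1 : ℕ) : ℤ) - (j 0 : ℤ)) = j 1 := by push_cast; ring
  rw [hj1, hj2]
  have hw : ω ^ (j 1 + 2 * j 2) = ω ^ ((j 1 : ℤ) + 2 * (j 2 : ℤ)) := by
    rw [← zpow_natCast]; congr 1
  rw [hw]
  congr 1
  · have hq' : q = r ^ (12 : ℤ) := by rw [← hq]; norm_cast
    rw [hq', ← zpow_mul]
    congr 1
    have hg : gZ (j 1) (j 2) = g j := by
      unfold gZ g
      have : (((j 1 : ℤ) + 2 * (j 2 : ℤ)) % 3 = 2) ↔ ((j 1 + 2 * j 2) % 3 = 2) := by omega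
      by_cases h : (j 1 + 2 * j 2) % 3 = 2
      · rw [if_pos h, if_pos (this.2 h)]
      · rw [if_neg h, if_neg (fun h' => h (this.1 h'))]
    rw [hg]
    unfold e
    obtain ⟨t, ht⟩ := three_dvd m j hj
    rw [ht, Int.mul_ediv_cancel_left _ (by norm_num : (3 : ℤ) ≠ 0)]
    have h0 := two_choose (j 0)
    have h1 := two_choose (j 1)
    have h2 := two_choose (j 2)
    linear_combination (-4 : ℤ) * ht + 2 * h0 + 2 * h1 + 2 * h2

open Pool.Agent.Helper30.Split in
/-- exact value of the sum in the problem, for every `T` -/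
theorem sum_eq [Finite F] (m : ℕ) (T : Matrix (Fin (3 * m)) (Fin (3 * m)) F) (ω : ℂ)
    (hω : IsPrimitiveRoot ω 3) :
    ∑ j ∈ Finset.Nat.antidiagonalTuple 3 (3 * m),
        ω ^ (j 1 + 2 * j 2) * (Nat.card F : ℂ) ^ (e m j) * (Y T j : ℂ) =
      (Nat.card F : ℂ) ^ ((m : ℤ) * (m - 3) / 2) * (sigma T : ℂ) := by
  classical
  let _ : Fintype (Submodule F (Fin (3 * m) → F)) := fintypeSubmodule
  obtain ⟨r, hr12⟩ := IsAlgClosed.exists_pow_nat_eq (Nat.card F : ℂ) (n := 12) (by norm_num)
  have hqpos : 0 < Nat.card F := Nat.card_pos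
  have hq0 : (Nat.card F : ℂ) ≠ 0 := by exact_mod_cast hqpos.ne'
  have hr : r ≠ 0 := by
    rintro rfl
    rw [zero_pow (by norm_num)] at hr12
    exact hq0 hr12.symm
  have hn : finrank F (Fin (3 * m) → F) = 3 * m := Module.finrank_fin_fun F
  have htot := total hr hω hr12 T.mulVecLin m hn
  rw [← sigma_eq] at htot
  have hexp : r ^ (6 * ((m : ℤ) ^ 2 - 3 * m)) = (Nat.card F : ℂ) ^ ((m : ℤ) * (m - 3) / 2) := by
    have hq' : (Nat.card F : ℂ) = r ^ (12 : ℤ) := by rw [← hr12]; norm_cast
    rw [hq', ← zpow_mul]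
    congr 1
    have hev : (2 : ℤ) ∣ (m : ℤ) * (m - 3) := by
      have h1 : (m : ℤ) % 2 = 0 ∨ (m : ℤ) % 2 = 1 := by omega
      rcases h1 with h1 | h1
      · exact Dvd.dvd.mul_right (by omega) _
      · exact Dvd.dvd.mul_left (by omega) _
    obtain ⟨t, ht⟩ := hev
    rw [ht, Int.mul_ediv_cancel_left _ (by norm_num : (2 : ℤ) ≠ 0)]
    linear_combination 6 * ht
  rw [← hexp, ← htot]
  -- the left side as a sum over pairs
  set P : Finset (Submodule F (Fin (3 * m) → F) × Submodule F (Fin (3 * m) → F)) :=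
    Finset.univ.filter fun p => p.1.map T.mulVecLin ≤ p.1 ∧ p.1 ≤ p.2 ∧ p.2.map T.mulVecLin ≤ p.2 with hP
  have hpairs : ∑ p ∈ P, cwt r ω m (dm p.1) (dm p.2) =
      ∑ U : Submodule F (Fin (3 * m) → F) with U.map T.mulVecLin ≤ U,
        ∑ Z : Submodule F (Fin (3 * m) → F) with U ≤ Z ∧ Z.map T.mulVecLin ≤ Z,
          cwt r ω m (dm U) (dm Z) := by
    refine Finset.sum_finset_product' (f := fun U Z => cwt r ω m (dm U) (dm Z)) P
      (Finset.univ.filter fun U : Submodule F (Fin (3 * m) → F) => U.map T.mulVecLin ≤ U)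
      (fun U => Finset.univ.filter fun Z : Submodule F (Fin (3 * m) → F) =>
        U ≤ Z ∧ Z.map T.mulVecLin ≤ Z) ?_
    intro p
    simp only [hP, Finset.mem_filter, Finset.mem_univ, true_and]
  rw [← hpairs]
  rw [← Finset.sum_fiberwise_of_maps_to (s := P) (t := Finset.Nat.antidiagonalTuple 3 (3 * m))
    (g := fun p => ![finrank F p.1, finrank F p.2 - finrank F p.1, 3 * m - finrank F p.2])]
  · apply Finset.sum_congr rfl
    intro j hj
    rw [Finset.Nat.mem_antidiagonalTuple, Fin.sum_univ_three] at hj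
    have hcond : ∀ p ∈ P, (![finrank F p.1, finrank F p.2 - finrank F p.1, 3 * m - finrank F p.2] = j ↔
        finrank F p.1 = j 0 ∧ finrank F p.2 = j 0 + j 1) := by
      intro p hp
      simp only [hP, Finset.mem_filter, Finset.mem_univ, true_and] at hp
      have h1 := Submodule.finrank_mono hp.2.1
      have h2 := Submodule.finrank_le p.2
      rw [hn] at h2
      constructor
      · rintro rfl
        refine ⟨rfl, ?_⟩
        change finrank F p.2 = finrank F p.1 + (finrank F p.2 - finrank F p.1)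
        omega
      · rintro ⟨h3, h4⟩
        funext i
        fin_cases i
        · exact h3
        · change finrank F p.2 - finrank F p.1 = j 1
          omega
        · change 3 * m - finrank F p.2 = j 2
          omega
    have hfilter : P.filter (fun p =>
        ![finrank F p.1, finrank F p.2 - finrank F p.1, 3 * m - finrank F p.2] = j) =
        Finset.univ.filter (fun p : Submodule F (Fin (3 * m) → F) × Submodule F (Fin (3 * m) → F) =>
          (p.1.map T.mulVecLin ≤ p.1 ∧ p.1 ≤ p.2 ∧ p.2.map T.mulVecLin ≤ p.2) ∧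
          finrank F p.1 = j 0 ∧ finrank F p.2 = j 0 + j 1) := by
      rw [Finset.filter_congr hcond, hP, Finset.filter_filter]
    rw [hfilter]
    have hconst : ∀ p ∈ (Finset.univ.filter
        (fun p : Submodule F (Fin (3 * m) → F) × Submodule F (Fin (3 * m) → F) =>
          (p.1.map T.mulVecLin ≤ p.1 ∧ p.1 ≤ p.2 ∧ p.2.map T.mulVecLin ≤ p.2) ∧
          finrank F p.1 = j 0 ∧ finrank F p.2 = j 0 + j 1)),
        cwt r ω m (dm p.1) (dm p.2) = ω ^ (j 1 + 2 * j 2) * (Nat.card F : ℂ) ^ (e m j) := by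
      intro p hp
      simp only [Finset.mem_filter, Finset.mem_univ, true_and] at hp
      rw [weight_eq hr12 m j hj]
      unfold dm
      rw [hp.2.1, hp.2.2]
    rw [Finset.sum_congr rfl hconst, Finset.sum_const, nsmul_eq_mul, mul_comm]
    congr 1
    rw [Y_eq T j hj, Nat.card_eq_fintype_card, Fintype.card_subtype]
  · intro p hp
    simp only [hP, Finset.mem_filter, Finset.mem_univ, true_and] at hp
    have h1 := Submodule.finrank_mono hp.2.1
    have h2 := Submodule.finrank_le p.2
    rw [hn] at h2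
    rw [Finset.Nat.mem_antidiagonalTuple, Fin.sum_univ_three]
    change finrank F p.1 + (finrank F p.2 - finrank F p.1) + (3 * m - finrank F p.2) = 3 * m
    omega

/-- the block shift `e_i ↦ e_{i+m}` -/
def shift (F : Type u) [Field F] (m : ℕ) : Matrix (Fin (3 * m)) (Fin (3 * m)) F :=
  Matrix.of fun a b => if (a : ℕ) = (b : ℕ) + m then 1 else 0

theorem shift_apply (m : ℕ) (v : Fin (3 * m) → F) (a : Fin (3 * m)) :
    (shift F m).mulVec v a = if h : m ≤ (a : ℕ) then v ⟨a - m, by omega⟩ else 0 := by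
  unfold shift Matrix.mulVec dotProduct
  simp only [Matrix.of_apply, ite_mul, one_mul, zero_mul]
  split_ifs with h
  · rw [Finset.sum_eq_single (⟨(a : ℕ) - m, by omega⟩ : Fin (3 * m))]
    · rw [if_pos]; simp only; omega
    · intro b _ hb
      rw [if_neg]
      intro h'
      apply hb
      apply Fin.ext
      simp only; omega
    · intro h'; exact absurd (Finset.mem_univ _) h'
  · apply Finset.sum_eq_zero
    intro b _
    rw [if_neg]; omega

/-- inclusion of the first block -/
def incl (F : Type u) [Field F] (m : ℕ) : (Fin m → F) →ₗ[F] (Fin (3 * m) → F) where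
  toFun f a := if h : (a : ℕ) < m then f ⟨a, h⟩ else 0
  map_add' f g := by funext a; simp only [Pi.add_apply]; split_ifs <;> simp
  map_smul' c f := by
    funext a; simp only [Pi.smul_apply, smul_eq_mul, RingHom.id_apply]; split_ifs <;> simp

theorem incl_apply (m : ℕ) (f : Fin m → F) (a : Fin (3 * m)) :
    incl F m f a = if h : (a : ℕ) < m then f ⟨a, h⟩ else 0 := rfl

theorem incl_injective (m : ℕ) : Function.Injective (incl F m) := by
  intro f g h
  funext i
  have := congrFun h ⟨i, by omega⟩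
  rw [incl_apply, incl_apply] at this
  simpa using this

theorem sigma_shift_pos [Finite F] (m : ℕ) : 0 < sigma (shift F m) := by
  rw [sigma_eq]
  have : Nonempty {U : Submodule F (Fin (3 * m) → F) // finrank F U = m ∧
      U ⊔ U.map (shift F m).mulVecLin ⊔ U.map ((shift F m).mulVecLin ∘ₗ (shift F m).mulVecLin) = ⊤} := by
    refine ⟨LinearMap.range (incl F m), ?_, ?_⟩
    · rw [LinearMap.finrank_range_of_inj (incl_injective m), Module.finrank_fin_fun]
    · rw [eq_top_iff]
      rintro v -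
      have hv : v = incl F m (fun i => v ⟨i, by omega⟩) +
          (shift F m).mulVecLin (incl F m (fun i => v ⟨i + m, by omega⟩)) +
          ((shift F m).mulVecLin ∘ₗ (shift F m).mulVecLin) (incl F m (fun i => v ⟨i + 2 * m, by omega⟩)) := by
        funext a
        simp only [Pi.add_apply, LinearMap.comp_apply, Matrix.mulVecLin_apply]
        rw [shift_apply, shift_apply, incl_apply]
        have ha := a.2
        rcases lt_or_ge (a : ℕ) m with h1 | h1
        · rw [dif_pos h1, dif_neg (by omega), dif_neg (by omega)]; simp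
        · rw [dif_neg (by omega), dif_pos h1, dif_pos h1, shift_apply, incl_apply]
          rcases lt_or_ge ((a : ℕ) - m) m with h2 | h2
          · rw [dif_pos h2, dif_neg (by simp only; omega)]
            simp only [zero_add, add_zero]
            congr 1; apply Fin.ext; simp only; omega
          · rw [dif_neg (by simp only; omega), dif_pos (by simp only; omega), incl_apply,
              dif_pos (by simp only; omega)]
            simp only [zero_add]
            congr 1; apply Fin.ext; simp only; omega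
      rw [hv]
      refine Submodule.add_mem _ (Submodule.add_mem _ ?_ ?_) ?_
      · exact Submodule.mem_sup_left (Submodule.mem_sup_left (LinearMap.mem_range_self _ _))
      · exact Submodule.mem_sup_left (Submodule.mem_sup_right
          (Submodule.mem_map_of_mem (LinearMap.mem_range_self _ _)))
      · exact Submodule.mem_sup_right (Submodule.mem_map_of_mem (LinearMap.mem_range_self _ _))
  exact Nat.card_pos

end

/-- **Full answer to Q1.**  (1) With the exponent `e` replaced by `e - m(m-3)/2` the conjectured identity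
holds for every finite field, every `m` and every `T`. (2) With the exponent exactly as printed it holds
for all `T` over a given finite field precisely when `m = 0` or `m = 3`. -/
theorem result :
    (∀ (F : Type u) [Field F] [Finite F] (m : ℕ) (T : Matrix (Fin (3 * m)) (Fin (3 * m)) F) (ω : ℂ),
      IsPrimitiveRoot ω 3 →
        (sigma T : ℂ) = ∑ j ∈ Finset.Nat.antidiagonalTuple 3 (3 * m),
          ω ^ (j 1 + 2 * j 2) * (Nat.card F : ℂ) ^ (e m j - (m : ℤ) * (m - 3) / 2) * (Y T j : ℂ)) ∧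
    (∀ (F : Type u) [Field F] [Finite F] (m : ℕ),
      (∀ (T : Matrix (Fin (3 * m)) (Fin (3 * m)) F) (ω : ℂ), IsPrimitiveRoot ω 3 →
        (sigma T : ℂ) = ∑ j ∈ Finset.Nat.antidiagonalTuple 3 (3 * m),
          ω ^ (j 1 + 2 * j 2) * (Nat.card F : ℂ) ^ (e m j) * (Y T j : ℂ)) ↔ (m = 0 ∨ m = 3)) := by
  constructor
  · intro F _ _ m T ω hω
    have hq0 : (Nat.card F : ℂ) ≠ 0 := by exact_mod_cast (Nat.card_pos (α := F)).ne'
    have h := sum_eq m T ω hω
    have hconv : ∀ j : Fin 3 → ℕ,
        ω ^ (j 1 + 2 * j 2) * (Nat.card F : ℂ) ^ (e m j - (m : ℤ) * (m - 3) / 2) * (Y T j : ℂ) =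
          ((Nat.card F : ℂ) ^ ((m : ℤ) * (m - 3) / 2))⁻¹ *
            (ω ^ (j 1 + 2 * j 2) * (Nat.card F : ℂ) ^ (e m j) * (Y T j : ℂ)) := by
      intro j
      rw [zpow_sub₀ hq0]
      ring
    rw [Finset.sum_congr rfl (fun j _ => hconv j), ← Finset.mul_sum, h, ← mul_assoc,
      inv_mul_cancel₀ (zpow_ne_zero _ hq0), one_mul]
  · intro F _ _ m
    constructor
    · intro h
      by_contra hm
      rw [not_or] at hm
      obtain ⟨ω, hω⟩ : ∃ ω : ℂ, IsPrimitiveRoot ω 3 := ⟨_, Complex.isPrimitiveRoot_exp 3 (by norm_num)⟩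
      have h1 := h (shift F m) ω hω
      rw [sum_eq m _ ω hω] at h1
      have hs : (sigma (shift F m) : ℂ) ≠ 0 := by exact_mod_cast (sigma_shift_pos m).ne'
      have h2 : (Nat.card F : ℂ) ^ ((m : ℤ) * (m - 3) / 2) = 1 := by
        have h3 : ((Nat.card F : ℂ) ^ ((m : ℤ) * (m - 3) / 2) - 1) * (sigma (shift F m) : ℂ) = 0 := by
          linear_combination -h1
        have h4 := (mul_eq_zero.mp h3).resolve_right hs
        linear_combination h4
      have hq2 : 1 < Nat.card F := Finite.one_lt_card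
      have h5 : ((Nat.card F : ℝ)) ^ ((m : ℤ) * (m - 3) / 2) = 1 := by
        apply Complex.ofReal_injective
        rw [Complex.ofReal_zpow, Complex.ofReal_natCast, Complex.ofReal_one]
        exact h2
      have hq1 : (1 : ℝ) < (Nat.card F : ℝ) := by exact_mod_cast hq2
      have h6 : (m : ℤ) * (m - 3) / 2 = 0 := by
        by_contra hne
        rcases lt_or_gt_of_ne hne with hlt | hgt
        · exact absurd h5 (zpow_lt_one_of_neg₀ hq1 hlt).ne
        · exact absurd h5 (one_lt_zpow₀ hq1 hgt).ne'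
      have h7 : (m : ℤ) * (m - 3) = 0 ∨ (m : ℤ) * (m - 3) = 1 := by omega
      have hm3 : m = 1 ∨ m = 2 ∨ 4 ≤ m := by omega
      rcases hm3 with rfl | rfl | h4
      · norm_num at h7
      · norm_num at h7
      · have : (4 : ℤ) ≤ (m : ℤ) * (m - 3) := by nlinarith [(by exact_mod_cast h4 : (4 : ℤ) ≤ (m : ℤ))]
        omega
    · rintro (rfl | rfl) T ω hω
      · rw [sum_eq 0 T ω hω]; simp
      · rw [sum_eq 3 T ω hω]; norm_num

end Pool.Agent.Results.MP_9e5051_co.UniversalFormula
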